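import Pool.Agent.helper50.BS.SpecT

set_option autoImplicit false

open Finset

open scoped Classical

noncomputable section

namespace Pool.Agent.BS

theorem TA2_aux (S A B : Finset ℕ) (h : Disjoint A B) :
    ((A ∪ B) ∩ S).card = (A ∩ S).card + (B ∩ S).card := by
  rw [Finset.union_inter_distrib_right, Finset.card_union_of_disjoint]
  exact Finset.disjoint_of_subset_left Finset.inter_subset_left
    (Finset.disjoint_of_subset_right Finset.inter_subset_left h)

theorem TA2 : TA2_stmt := by
  intro W β A B h
  have hl : Disjoint A.toLeft B.toLeft := by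
    rw [Finset.disjoint_left] at h ⊢
    intro x hx hx'
    rw [Finset.mem_toLeft] at hx hx'
    exact h hx hx'
  have hr : Disjoint A.toRight B.toRight := by
    rw [Finset.disjoint_left] at h ⊢
    intro x hx hx'
    rw [Finset.mem_toRight] at hx hx'
    exact h hx hx'
  have h1 : (A ∪ B).toLeft = A.toLeft ∪ B.toLeft := by
    ext x; simp only [Finset.mem_toLeft, Finset.mem_union]
  have h2 : (A ∪ B).toRight = A.toRight ∪ B.toRight := by
    ext x; simp only [Finset.mem_toRight, Finset.mem_union]
  unfold nW bB
  rw [h1, h2]
  exact ⟨TA2_aux W _ _ hl, TA2_aux β _ _ hr⟩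

end Pool.Agent.BS
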