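import Pool.Agent.helper50.BS.SpecU

/-! # bs:UA1: the functions of the graph part are those of the incidence data -/

set_option autoImplicit false
set_option linter.unusedVariables false
set_option linter.dupNamespace false

open scoped Classical

noncomputable section

namespace Pool.Agent.helper50.BT

open Pool.Agent.helper81.PL

theorem UA1_fmem (a : ℕ) (s : Finset ℕ) : fmem a s = true ↔ a ∈ s := by
  unfold fmem; exact decide_eq_true_iff

theorem UA1_xor (p q : Bool) (P Q : Prop) (hp : p = true ↔ P) (hq : q = true ↔ Q) :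
    (xor p q = true) ↔ ¬ (P ↔ Q) := by
  rw [← hp, ← hq]
  cases p <;> cases q <;> simp

theorem UA1_or (p q : Bool) (P Q : Prop) (hp : p = true ↔ P) (hq : q = true ↔ Q) :
    ((p || q) = true) ↔ (P ∨ Q) := by
  rw [← hp, ← hq]
  cases p <;> cases q <;> simp

theorem UA1 : UA1_stmt := by
  intro n E h
  refine ⟨fun W => ?_, fun W => ?_, fun B W => ?_, fun W => ?_, fun e he => ?_⟩
  · ext e
    unfold BS.IG.dl helper81.BS.dl ig
    rw [Finset.mem_filter, Finset.mem_filter,
      UA1_xor _ _ _ _ (UA1_fmem (e / n) W) (UA1_fmem (e % n) W)]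
  · ext e
    unfold BS.IG.EW helper81.BS.tch ig
    rw [Finset.mem_filter, Finset.mem_filter,
      UA1_or _ _ _ _ (UA1_fmem (e / n) W) (UA1_fmem (e % n) W)]
  · unfold BS.IG.tt helper81.BS.tt helper81.BS.tch ig
    congr 1
    ext e
    rw [Finset.mem_filter, Finset.mem_filter,
      UA1_or _ _ _ _ (UA1_fmem (e / n) W) (UA1_fmem (e % n) W)]
  · unfold helper81.BS.dl
    exact Finset.filter_subset _ _
  · obtain ⟨h1, h2⟩ := h e he
    have h3 : e / n < n := lt_trans h1 h2
    exact (Nat.div_lt_iff_lt_mul (Nat.pos_of_ne_zero (by rintro rfl; simp at h2))).mp h3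

end Pool.Agent.helper50.BT
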